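import Pool.Agent.K1H90.CC.Ch
import Pool.Agent.K1H79.TW.Stm

/-! # Characters of the class group at `s = 1` (piece TW-J of K1H79/TW: `S_CHR`, `S_ALL`) -/

set_option autoImplicit false
set_option linter.unusedSectionVars false

open NumberField Complex Filter Topology Ideal IsDedekindDomain CohNT
open scoped nonZeroDivisors

namespace Pool.Agent.K1H90.TWC

open Pool.Agent.Y773 Pool.Agent.Y773.G Pool.Agent.Y772.DK Pool.Agent.R362.HL
open Pool.Agent.K1H90.CC (DF log_norm all_primes)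

variable {F : Type} [Field F] [NumberField F]

lemma chi_norm (χ : ClassGroup (𝓞 F) →* ℂˣ) (c : ClassGroup (𝓞 F)) : ‖((χ c : ℂˣ) : ℂ)‖ = 1 := by
  have h1 : c ^ Fintype.card (ClassGroup (𝓞 F)) = 1 := pow_card_eq_one
  have h2 : ((χ c : ℂˣ) : ℂ) ^ Fintype.card (ClassGroup (𝓞 F)) = 1 := by
    rw [← Units.val_pow_eq_pow_val, ← map_pow, h1, map_one, Units.val_one]
  exact Complex.norm_eq_one_of_pow_eq_one h2 Fintype.card_ne_zero

open Classical in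
/-- the character of the ideals -/
noncomputable def ps (χ : ClassGroup (𝓞 F) →* ℂˣ) : Ideal (𝓞 F) →*₀ ℂ where
  toFun 𝔞 := if h : 𝔞 = ⊥ then 0 else
    ((χ (ClassGroup.mk0 ⟨𝔞, mem_nonZeroDivisors_of_ne_zero h⟩) : ℂˣ) : ℂ)
  map_zero' := by simp
  map_one' := by
    have h1 : (1 : Ideal (𝓞 F)) ≠ ⊥ := by
      rw [Ideal.one_eq_top]
      exact top_ne_bot
    rw [dif_neg h1]
    have h2 : (⟨1, mem_nonZeroDivisors_of_ne_zero h1⟩ : (Ideal (𝓞 F))⁰) = 1 := rfl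
    rw [h2, map_one, map_one, Units.val_one]
  map_mul' 𝔞 𝔟 := by
    by_cases h1 : 𝔞 = ⊥
    · simp [h1]
    · by_cases h2 : 𝔟 = ⊥
      · simp [h2]
      · have h3 : 𝔞 * 𝔟 ≠ ⊥ := by
          rw [Ne, Ideal.mul_eq_bot]
          tauto
        rw [dif_neg h1, dif_neg h2, dif_neg h3, ← Units.val_mul, ← map_mul, ← map_mul]
        rfl

lemma ps_apply (χ : ClassGroup (𝓞 F) →* ℂˣ) (I : (Ideal (𝓞 F))⁰) :
    ps χ (I : Ideal (𝓞 F)) = ((χ (ClassGroup.mk0 I) : ℂˣ) : ℂ) := by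
  classical
  have h : (I : Ideal (𝓞 F)) ≠ ⊥ := nonZeroDivisors.ne_zero I.2
  show (if h : (I : Ideal (𝓞 F)) = ⊥ then (0 : ℂ) else _) = _
  rw [dif_neg h]

lemma ps_apply' (χ : ClassGroup (𝓞 F) →* ℂˣ) {𝔞 : Ideal (𝓞 F)} (h : 𝔞 ≠ ⊥) :
    ps χ 𝔞 = ((χ (ClassGroup.mk0 ⟨𝔞, mem_nonZeroDivisors_of_ne_zero h⟩) : ℂˣ) : ℂ) :=
  ps_apply χ ⟨𝔞, mem_nonZeroDivisors_of_ne_zero h⟩

lemma ps_norm (χ : ClassGroup (𝓞 F) →* ℂˣ) (𝔞 : Ideal (𝓞 F)) : ‖ps χ 𝔞‖ ≤ 1 := by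
  by_cases h : 𝔞 = ⊥
  · rw [h, ← Ideal.zero_eq_bot, map_zero, norm_zero]; exact zero_le_one
  · rw [ps_apply' χ h, chi_norm]

lemma isRay_ps (χ : ClassGroup (𝓞 F) →* ℂˣ) :
    IsRay (⊤ : Ideal (𝓞 F)) (fun _ => 0) (ps χ) where
  ne_bot := top_ne_bot
  sig_le := fun _ => Nat.zero_le _
  cpx := fun _ _ => rfl
  supp := fun 𝔞 h => by
    refine ⟨fun _ => ?_, fun _ => ?_⟩
    · rw [← Ideal.one_eq_top]
      exact isCoprime_one_right
    · rw [ps_apply' χ h]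
      exact Units.ne_zero _
  sig := fun x hx _ => by
    have h1 : Ideal.span {x} ≠ ⊥ := by
      rw [Ne, Ideal.span_singleton_eq_bot]
      exact hx
    rw [ps_apply' χ h1]
    have h2 : ClassGroup.mk0 (⟨Ideal.span {x}, mem_nonZeroDivisors_of_ne_zero h1⟩ : (Ideal (𝓞 F))⁰) = 1 := by
      rw [ClassGroup.mk0_eq_one_iff]
      exact ⟨⟨x, rfl⟩⟩
    rw [h2, map_one, Units.val_one]
    unfold signs
    simp
  prim := fun 𝔤 h1 h2 => by
    exfalso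
    apply h2
    rw [← Ideal.one_eq_top] at h1 ⊢
    exact isUnit_iff_eq_one.1 (isUnit_of_dvd_one h1)

/-- the L-function is bounded -/
theorem LI_bdd (χ : ClassGroup (𝓞 F) →* ℂˣ) (hχ : χ ≠ 1) :
    ∃ C : ℝ, ∀ s : ℝ, 1 < s → s ≤ 2 → ‖LI (ps χ) (s : ℂ)‖ ≤ C := by
  obtain ⟨-, X, hX⟩ := (isRay_ps χ).xi
  have hr : rayPole (ps χ) = 0 := by
    unfold rayPole
    rw [if_neg]
    intro h1
    apply hχ
    refine MonoidHom.ext fun c => ?_
    rw [MonoidHom.one_apply]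
    obtain ⟨I, rfl⟩ := ClassGroup.mk0_surjective (R := 𝓞 F) c
    have h2 := h1 (I : Ideal (𝓞 F)) (nonZeroDivisors.ne_zero I.2)
    rw [ps_apply] at h2
    exact Units.ext h2
  rw [hr] at hX
  obtain ⟨R, hR⟩ : ∃ R : ℝ, R = rayCond (⊤ : Ideal (𝓞 F)) := ⟨_, rfl⟩
  rw [← hR] at hX
  have hR0 : (R : ℂ) ≠ 0 := by
    have := hX.one_le
    exact_mod_cast (by linarith : (R : ℝ) ≠ 0)
  set W : ℂ → ℂ := fun s => X s * ((R : ℂ) ^ (-(s / 2)) * ∏ φ : F →+* ℂ,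
    (Complex.Gammaℝ (s + ex (fun _ : InfinitePlace F => 0) φ))⁻¹) with hW
  have hWd : Differentiable ℂ W := by
    refine hX.diff.mul (Differentiable.mul ?_ ?_)
    · exact Differentiable.const_cpow (by fun_prop) (Or.inl hR0)
    · refine Differentiable.fun_finsetProd fun φ _ => ?_
      exact differentiable_Gammaℝ_inv.comp (differentiable_id.add_const _)
  have hWc : Continuous fun s : ℝ => W (s : ℂ) := hWd.continuous.comp Complex.continuous_ofReal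
  obtain ⟨C, hC⟩ := isCompact_Icc.exists_bound_of_continuousOn (s := Set.Icc (1 : ℝ) 2) hWc.continuousOn
  refine ⟨C, fun s hs hs2 => ?_⟩
  have h1 := hC s ⟨hs.le, hs2⟩
  have h2 : W (s : ℂ) = LI (ps χ) (s : ℂ) := by
    rw [hW]
    simp only
    rw [hX.eq (s : ℂ) (by rw [ofReal_re]; exact hs), pow_zero, one_mul, Finset.prod_inv_distrib, Complex.cpow_neg]
    have h3 : (R : ℂ) ^ ((s : ℂ) / 2) ≠ 0 := by
      rw [Ne, Complex.cpow_eq_zero_iff]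
      exact fun h => hR0 h.1
    have h4 : ∏ φ : F →+* ℂ, Complex.Gammaℝ ((s : ℂ) + ex (fun _ : InfinitePlace F => 0) φ) ≠ 0 := by
      refine Finset.prod_ne_zero_iff.2 fun φ _ => ?_
      apply Complex.Gammaℝ_ne_zero_of_re_pos
      rw [Complex.add_re, Complex.ofReal_re, Complex.natCast_re]
      positivity
    field_simp
  rw [← h2]
  exact h1

end Pool.Agent.K1H90.TWC

namespace Pool.Agent.K1H90.TWC

open Pool.Agent.K1H79.TW Pool.Agent.Y773 Pool.Agent.Y772.DK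
open Pool.Agent.K1H90.CC (DF log_norm all_primes)

theorem t_CHR : S_CHR := by
  intro F _ _ χ hχ
  obtain ⟨C2, hC2⟩ := LI_bdd χ hχ
  refine ⟨|Real.log C2| + DF F, fun s hs hs2 => ?_⟩
  have h2 := log_norm (ps χ) (ps_norm χ) hs
  have h3 := Real.log_le_log h2.1 (hC2 s hs hs2)
  have h4 : ∑' v : HeightOneSpectrum (𝓞 F),
      ((χ (ClassGroup.mk0 ⟨v.asIdeal, mem_nonZeroDivisors_of_ne_zero v.ne_bot⟩) : ℂˣ) : ℂ).re *
        ((Ideal.absNorm v.asIdeal : ℕ) : ℝ) ^ (-s) =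
      ∑' v : HeightOneSpectrum (𝓞 F), (ps χ v.asIdeal).re * ((absNorm v.asIdeal : ℕ) : ℝ) ^ (-s) :=
    tsum_congr fun v => by rw [ps_apply' χ v.ne_bot]
  rw [h4]
  have h5 := le_abs_self (Real.log C2)
  have h7 := abs_le.1 h2.2
  have h8 := h7.1
  refine le_trans ?_ (add_le_add_left h5 (DF F))
  linarith

theorem t_ALL : S_ALL := by
  intro F _ _
  exact all_primes F

end Pool.Agent.K1H90.TWC
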